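import Mathlib

open scoped LinearAlgebra.Projectivization
open Projectivization Configuration

namespace Pool.Agent.Results.MP_a51b5f_co.Superpoly

/-- Incidence graph of a point-line structure. -/
def incG (P L : Type) [Membership P L] : SimpleGraph (P ⊕ L) :=
  SimpleGraph.fromRel (fun u v => ∃ (p : P) (l : L), u = Sum.inl p ∧ v = Sum.inr l ∧ p ∈ l)

/-- `D` is a `k`-dominating independent set of `G`. -/
def IsDIS {V : Type} (G : SimpleGraph V) (k : ℕ) (D : Set V) : Prop :=
  (∀ u ∈ D, ∀ v ∈ D, ¬ G.Adj u v) ∧ ∀ v, v ∉ D → k ≤ (G.neighborSet v ∩ D).ncard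

theorem adj_mk {P L : Type} [Membership P L] (p : P) (l : L) (h : p ∈ l) : (incG P L).Adj (.inl p) (.inr l) := by
  unfold incG; rw [SimpleGraph.fromRel_adj]
  exact ⟨by simp, Or.inl ⟨p, l, rfl, rfl, h⟩⟩

theorem fib {X Y : Type} [AddCommGroup X] [AddCommGroup Y] [Finite X] [Finite Y] (T : X →+ Y) (x0 : X) (k : ℕ)
    (h : k * Nat.card Y ≤ Nat.card X) : k ≤ {x | T x = T x0}.ncard := by
  classical
  have := Fintype.ofFinite X
  have := Fintype.ofFinite Y
  have h1 : (Finset.univ : Finset X).card ≤ (Finset.univ.filter (fun x => T x = T x0)).card * (Finset.univ : Finset Y).card := by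
    apply Finset.card_le_mul_card_image_of_maps_to (f := T) (fun a _ => Finset.mem_univ _)
    intro b _
    by_cases hb : b ∈ Set.range T
    · exact (AddMonoidHom.card_fiber_eq_of_mem_range T hb ⟨x0, rfl⟩).le
    · have : Finset.univ.filter (fun x => T x = b) = ∅ := by
        ext x; simp only [Finset.mem_filter, Finset.mem_univ, true_and, Finset.notMem_empty, iff_false]
        exact fun h => hb ⟨x, h⟩
      rw [this]; simp
  have e : {x | T x = T x0}.ncard = (Finset.univ.filter (fun x => T x = T x0)).card := by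
    rw [← Set.ncard_coe_finset]; congr 1; ext x; simp
  rw [e]
  simp only [Finset.card_univ, Nat.card_eq_fintype_card] at h h1
  have hp : 0 < Fintype.card Y := Fintype.card_pos
  exact Nat.le_of_mul_le_mul_right (h.trans h1) hp

section
variable {K : Type} [Field K] [Finite K] [Algebra (ZMod 2) K]

abbrev PP (K : Type) [Field K] := ℙ K (Fin 3 → K)

noncomputable def φ : K →ₗ[ZMod 2] ZMod 2 := Algebra.trace (ZMod 2) K

theorem rep (f : K →ₗ[ZMod 2] ZMod 2) : ∃ s : K, ∀ t, f t = φ (s * t) := by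
  have hn := traceForm_nondegenerate (ZMod 2) K
  refine ⟨((Algebra.traceForm (ZMod 2) K).toDual hn).symm f, fun t => ?_⟩
  have := LinearMap.BilinForm.apply_toDual_symm_apply (hB := hn) f t
  rw [← this]; rfl

omit [Finite K] in
theorem two : (2 : K) = 0 := by
  have : (algebraMap (ZMod 2) K) 2 = 2 := map_ofNat _ 2
  rw [← this]; have : (2 : ZMod 2) = 0 := rfl
  rw [this, map_zero]

omit [Finite K] [Algebra (ZMod 2) K] in
theorem ne1 (a c : K) : (![1, a, c] : Fin 3 → K) ≠ 0 := fun h => by simpa using congrFun h 0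
omit [Finite K] [Algebra (ZMod 2) K] in
theorem ne2 (a c : K) : (![a, 1, c] : Fin 3 → K) ≠ 0 := fun h => by simpa using congrFun h 1
omit [Finite K] [Algebra (ZMod 2) K] in
theorem ne3 (a c : K) : (![a, c, 1] : Fin 3 → K) ≠ 0 := fun h => by simpa using congrFun h 2

def L0 (A : Submodule (ZMod 2) K) : Set (PP K) := {l | ∃ a ∈ A, ∃ c, φ (a * c) ≠ 0 ∧ l = mk K ![1, a, c] (ne1 a c)}
def P0 (A : Submodule (ZMod 2) K) : Set (PP K) := {p | ∀ l ∈ L0 A, p ∉ l}
def DD (A : Submodule (ZMod 2) K) : Set (PP K ⊕ PP K) := Sum.inl '' P0 A ∪ Sum.inr '' L0 A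

omit [Finite K] [Algebra (ZMod 2) K] in
theorem mem_mk (v w : Fin 3 → K) (hv hw) : (mk K v hv : PP K) ∈ (mk K w hw : PP K) ↔ v 0 * w 0 + v 1 * w 1 + v 2 * w 2 = 0 := by
  rw [ofField.mem_iff, orthogonal_mk]; simp [dotProduct, Fin.sum_univ_three]

omit [Finite K] [Algebra (ZMod 2) K] in
theorem mk_inj (v w : Fin 3 → K) (hv hw) (h : (mk K v hv : PP K) = mk K w hw) (i : Fin 3) (h1 : v i = 1) (h2 : w i = 1) :
    v = w := by
  obtain ⟨a, ha⟩ := (mk_eq_mk_iff' K v w hv hw).1 h
  have := congrFun ha i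
  simp only [Pi.smul_apply, smul_eq_mul, h1, h2, mul_one] at this
  rw [← ha, this, one_smul]

noncomputable def gq (A : Submodule (ZMod 2) K) (y z : K) : A →+ K where
  toFun a := a * y + a * a * z
  map_zero' := by simp
  map_add' a b := by
    have := two (K := K)
    push_cast; linear_combination (a * b * z : K) * this

theorem pts (A : Submodule (ZMod 2) K) (k : ℕ) (h1 : k * 2 ≤ Nat.card A) (p : PP K) (hp : p ∉ P0 A) :
    k ≤ {l | l ∈ L0 A ∧ p ∈ l}.ncard := by
  have t2 := two (K := K)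
  have hAK : Nat.card A ≤ Nat.card K := Nat.card_le_card_of_injective _ Subtype.val_injective
  simp only [P0, Set.mem_setOf_eq, not_forall, not_not] at hp
  obtain ⟨l, ⟨a, ha, c, hc, rfl⟩, hl⟩ := hp
  induction p using Projectivization.ind with | h v hv =>
  rw [mem_mk] at hl
  simp only [Matrix.cons_val_zero, Matrix.cons_val_one, Matrix.cons_val] at hl
  by_cases hw : v 2 = 0
  · let T : K →+ ZMod 2 := (φ (K := K)).toAddMonoidHom.comp (AddMonoidHom.mulLeft a)
    refine (fib T c k (by simpa using h1.trans hAK)).trans ?_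
    refine Set.ncard_le_ncard_of_injOn (fun c' => mk K ![1, a, c'] (ne1 a c')) ?_ ?_ (Set.toFinite _)
    · intro c' hc'
      refine ⟨⟨a, ha, c', ?_, rfl⟩, ?_⟩
      · have : φ (a * c') = φ (a * c) := hc'
        rw [this]; exact hc
      · rw [mem_mk]; simp only [Matrix.cons_val_zero, Matrix.cons_val_one, Matrix.cons_val]
        rw [hw] at hl ⊢; linear_combination hl
    · intro x _ y _ h
      have := mk_inj _ _ _ _ h 0 rfl rfl
      simpa using congrFun this 2
  · let T : A →+ ZMod 2 := (φ (K := K)).toAddMonoidHom.comp (gq A (v 0 / v 2) (v 1 / v 2))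
    refine (fib T ⟨a, ha⟩ k (by simpa using h1)).trans ?_
    refine Set.ncard_le_ncard_of_injOn (fun a' : A => mk K ![1, a', v 0 / v 2 + a' * (v 1 / v 2)] (ne1 _ _)) ?_ ?_ (Set.toFinite _)
    · intro a' ha'
      refine ⟨⟨a', a'.2, _, ?_, rfl⟩, ?_⟩
      · have : φ (a' * (v 0 / v 2) + a' * a' * (v 1 / v 2)) = φ (a * (v 0 / v 2) + a * a * (v 1 / v 2)) := ha'
        have e1 : (a' : K) * (v 0 / v 2 + a' * (v 1 / v 2)) = a' * (v 0 / v 2) + a' * a' * (v 1 / v 2) := by ring
        have e2 : a * (v 0 / v 2) + a * a * (v 1 / v 2) = a * c := by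
          field_simp; linear_combination a * hl - a * c * v 2 * t2
        rw [e1, this, e2]; exact hc
      · rw [mem_mk]; simp only [Matrix.cons_val_zero, Matrix.cons_val_one, Matrix.cons_val]
        field_simp; linear_combination (v 0 + v 1 * a') * t2
    · intro x _ y _ h
      have := mk_inj _ _ _ _ h 0 rfl rfl
      exact Subtype.ext (by simpa using congrFun this 1)

theorem lns (A : Submodule (ZMod 2) K) (k : ℕ) (h1 : k ≤ Nat.card A) (h2 : k * Nat.card A ≤ Nat.card K)
    (h3 : ∃ y0, y0 ∉ A) (l : PP K) (hl : l ∉ L0 A) :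
    k ≤ {p | p ∈ P0 A ∧ p ∈ l}.ncard := by
  have t2 := two (K := K)
  induction l using Projectivization.ind with | h w hw =>
  by_cases h0 : w 0 = 0 ∧ w 1 = 0
  · obtain ⟨y0, hy0⟩ := h3
    have : (Set.univ : Set A).ncard = Nat.card A := Set.ncard_univ _
    rw [← this] at h1
    refine h1.trans (Set.ncard_le_ncard_of_injOn (fun a : A => mk K ![y0 + a, 1, 0] (ne2 _ _)) ?_ ?_ (Set.toFinite _))
    · intro a _
      refine ⟨?_, ?_⟩
      · rintro l ⟨b, hb, c, -, rfl⟩ h
        rw [mem_mk] at h; simp only [Matrix.cons_val_zero, Matrix.cons_val_one, Matrix.cons_val] at h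
        apply hy0
        have : y0 = -(a + b) := by linear_combination h
        rw [this]; exact A.neg_mem (A.add_mem a.2 hb)
      · rw [mem_mk]; simp [h0.1, h0.2]
    · intro x _ y _ h
      have := mk_inj _ _ _ _ h 1 rfl rfl
      exact Subtype.ext (by simpa using congrFun this 0)
  · obtain ⟨y0, z0, e0⟩ : ∃ y0 z0, y0 * w 0 + z0 * w 1 + w 2 = 0 := by
      by_cases a : w 0 = 0
      · have b : w 1 ≠ 0 := fun b => h0 ⟨a, b⟩
        exact ⟨0, - w 2 / w 1, by field_simp; ring⟩
      · exact ⟨- w 2 / w 0, 0, by field_simp; ring⟩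
    let g : A →ₗ[ZMod 2] K := (gq A (w 1) (w 0)).toZModLinearMap 2
    let ψ : Module.Dual (ZMod 2) A := φ ∘ₗ (gq A y0 z0).toZModLinearMap 2
    have hψ : ψ ∈ (LinearMap.ker g).dualAnnihilator := by
      rw [Submodule.mem_dualAnnihilator]
      intro a ha
      have ha' : (a : K) * w 1 + a * a * w 0 = 0 := ha
      show φ ((a : K) * y0 + a * a * z0) = 0
      by_cases a0 : (a : K) = 0
      · simp [a0]
      have e1 : w 1 + a * w 0 = 0 := by
        apply mul_left_cancel₀ a0; linear_combination ha'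
      have w0 : w 0 ≠ 0 := fun h => h0 ⟨h, by rw [h] at e1; simpa using e1⟩
      by_contra hne
      apply hl
      refine ⟨a, a.2, y0 + a * z0, by rwa [mul_add, ← mul_assoc], ?_⟩
      rw [mk_eq_mk_iff']
      refine ⟨w 0, ?_⟩
      funext i; fin_cases i
      · simp
      · simp; linear_combination e1 - w 1 * t2
      · simp; linear_combination e0 + z0 * e1 - (z0 * w 1 + w 2) * t2
    rw [← LinearMap.range_dualMap_eq_dualAnnihilator_ker] at hψ
    obtain ⟨f, hf⟩ := hψ
    obtain ⟨s, hs⟩ := rep f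
    let T : K →+ Module.Dual (ZMod 2) A :=
      { toFun := fun t => φ ∘ₗ (LinearMap.mulLeft (ZMod 2) t) ∘ₗ g
        map_zero' := by ext a; simp
        map_add' := fun a b => by ext x; simp [add_mul] }
    have hc : Nat.card (Module.Dual (ZMod 2) A) = Nat.card A := by
      rw [Module.natCard_eq_pow_finrank (K := ZMod 2), Module.natCard_eq_pow_finrank (K := ZMod 2) (V := A),
        Subspace.dual_finrank_eq]
    have : Finite (Module.Dual (ZMod 2) A) := Module.finite_of_finite (ZMod 2)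
    refine (fib T s k (by rw [hc]; exact h2)).trans ?_
    refine Set.ncard_le_ncard_of_injOn (fun t => mk K ![y0 + t * w 1, z0 + t * w 0, 1] (ne3 _ _)) ?_ ?_ (Set.toFinite _)
    · intro t ht
      refine ⟨?_, ?_⟩
      · rintro l ⟨a, ha, c, hc, rfl⟩ h
        rw [mem_mk] at h; simp only [Matrix.cons_val_zero, Matrix.cons_val_one, Matrix.cons_val] at h
        apply hc
        have e1 : φ (t * (a * w 1 + a * a * w 0)) = φ (s * (a * w 1 + a * a * w 0)) := LinearMap.congr_fun ht ⟨a, ha⟩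
        have e2 : f (a * w 1 + a * a * w 0) = φ (a * y0 + a * a * z0) := LinearMap.congr_fun hf ⟨a, ha⟩
        have e3 : a * c = t * (a * w 1 + a * a * w 0) - (a * y0 + a * a * z0) := by
          linear_combination a * h - t * (a * w 1 + a * a * w 0) * t2
        rw [e3, map_sub, e1, ← hs, e2, sub_self]
      · rw [mem_mk]; simp only [Matrix.cons_val_zero, Matrix.cons_val_one, Matrix.cons_val]
        linear_combination e0 + t * w 0 * w 1 * t2
    · intro x _ y _ h
      have := mk_inj _ _ _ _ h 2 rfl rfl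
      have a0 := congrFun this 0
      have a1 := congrFun this 1
      simp only [Matrix.cons_val_zero, Matrix.cons_val_one, add_right_inj, mul_eq_mul_right_iff] at a0 a1
      rcases a0 with a0 | a0
      · exact a0
      rcases a1 with a1 | a1
      · exact a1
      exact absurd ⟨a1, a0⟩ h0

theorem isDIS (A : Submodule (ZMod 2) K) (k : ℕ) (h1 : k * 2 ≤ Nat.card A) (h2 : k * Nat.card A ≤ Nat.card K)
    (h3 : ∃ y0, y0 ∉ A) : IsDIS (incG (PP K) (PP K)) k (DD A) := by
  constructor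
  · have key : ∀ p l : PP K, Sum.inl p ∈ DD A → Sum.inr l ∈ DD A → p ∉ l := by
      intro p l hp hl
      simp [DD] at hp hl
      exact hp l hl
    intro u hu v hv h
    rcases (SimpleGraph.fromRel_adj _ _ _).1 h with ⟨-, ⟨p, l, rfl, rfl, h'⟩ | ⟨p, l, rfl, rfl, h'⟩⟩
    · exact key p l hu hv h'
    · exact key p l hv hu h'
  · rintro (p | l) hv
    · have hp : p ∉ P0 A := fun h => hv (Or.inl ⟨p, h, rfl⟩)
      refine (pts A k h1 p hp).trans (Set.ncard_le_ncard_of_injOn Sum.inr ?_ Sum.inr_injective.injOn (Set.toFinite _))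
      intro l hl
      exact ⟨adj_mk p l hl.2, Or.inr ⟨l, hl.1, rfl⟩⟩
    · have hl : l ∉ L0 A := fun h => hv (Or.inr ⟨l, h, rfl⟩)
      refine (lns A k (by omega) h2 h3 l hl).trans (Set.ncard_le_ncard_of_injOn Sum.inl ?_ Sum.inl_injective.injOn (Set.toFinite _))
      intro p hp
      exact ⟨(adj_mk p l hp.2).symm, Or.inl ⟨p, hp.1, rfl⟩⟩

theorem DD_le {A B : Submodule (ZMod 2) K} (h : DD A = DD B) : A ≤ B := by
  intro a ha
  by_cases a0 : a = 0
  · rw [a0]; exact B.zero_mem
  obtain ⟨c, hc⟩ : ∃ c, φ (a * c) ≠ 0 := by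
    by_contra hn
    push Not at hn
    exact a0 ((traceForm_nondegenerate (ZMod 2) K).1 a hn)
  have : Sum.inr (mk K ![1, a, c] (ne1 a c)) ∈ DD B := by
    rw [← h]; exact Or.inr ⟨_, ⟨a, ha, c, hc, rfl⟩, rfl⟩
  simp only [DD, Set.mem_union, Set.mem_image, reduceCtorEq, and_false, exists_false, Sum.inr.injEq, exists_eq_right,
    false_or] at this
  obtain ⟨b, hb, c', -, e⟩ := this
  have := congrFun (mk_inj _ _ _ _ e 0 rfl rfl) 1
  simp only [Matrix.cons_val_one, Matrix.cons_val_zero] at this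
  rwa [this]
end

theorem many (k r s : ℕ) (hr : k * 2 ≤ 2 ^ r) (hs : k ≤ 2 ^ s) (hs0 : s ≠ 0) :
    ∃ (K : Type) (_ : Field K) (_ : Finite K), Nat.card K = 2 ^ (r + s) ∧
      2 ^ (r * s) ≤ {D | IsDIS (incG (PP K) (PP K)) k D}.ncard := by
  let K := GaloisField 2 (r + s)
  have hK : Nat.card K = 2 ^ (r + s) := GaloisField.card 2 (r + s) (by omega)
  refine ⟨K, inferInstance, inferInstance, hK, ?_⟩
  let V := Fin r → ZMod 2
  let W := Fin s → ZMod 2
  have hd : Module.finrank (ZMod 2) (V × W) = Module.finrank (ZMod 2) K := by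
    rw [GaloisField.finrank 2 (by omega)]; simp [V, W]
  let e : (V × W) ≃ₗ[ZMod 2] K := LinearEquiv.ofFinrankEq _ _ hd
  let ι : (V →ₗ[ZMod 2] W) → (V →ₗ[ZMod 2] K) := fun f => e.toLinearMap ∘ₗ (LinearMap.prod LinearMap.id f)
  have hι : ∀ f, Function.Injective (ι f) := by
    intro f x y h
    have := e.injective h
    exact congrArg Prod.fst this
  have hA : ∀ f, Nat.card (LinearMap.range (ι f)) = 2 ^ r := by
    intro f
    rw [← Nat.card_congr (LinearEquiv.ofInjective (ι f) (hι f)).toEquiv]; simp [V]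
  have hF : (Set.univ : Set (V →ₗ[ZMod 2] W)).ncard = 2 ^ (r * s) := by
    rw [Set.ncard_univ, Module.natCard_eq_pow_finrank (K := ZMod 2), Module.finrank_linearMap]; simp [V, W]
  rw [← hF]
  refine Set.ncard_le_ncard_of_injOn (fun f => DD (LinearMap.range (ι f))) ?_ ?_ (Set.toFinite _)
  · intro f _
    refine isDIS _ k (by rw [hA]; exact hr) (by rw [hA, hK, pow_add, mul_comm]; exact Nat.mul_le_mul_left _ hs) ?_
    refine ⟨e (0, fun _ => 1), ?_⟩
    rintro ⟨x, hx⟩
    have := e.injective hx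
    have h1 : x = 0 := congrArg Prod.fst this
    have h2 : f x = fun _ => 1 := congrArg Prod.snd this
    rw [h1, map_zero] at h2
    exact zero_ne_one (α := ZMod 2) (congrFun h2 ⟨0, by omega⟩)
  · intro f _ g _ h
    refine LinearMap.ext fun x => ?_
    obtain ⟨y, hy⟩ := DD_le h ⟨x, rfl⟩
    have := e.injective hy
    have h1 : y = x := congrArg Prod.fst this
    have h2 : g y = f x := congrArg Prod.snd this
    rw [← h2, h1]

theorem result (k : ℕ) :
    ¬ ∃ C c : ℝ, 0 < C ∧ 0 < c ∧ ∀ (P L : Type) [Membership P L] [Finite P] [Finite L] [ProjectivePlane P L],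
      (({D | IsDIS (incG P L) k D}.ncard : ℕ) : ℝ) ≤ C * ((Nat.card (P ⊕ L) : ℕ) : ℝ) ^ c := by
  classical
  rintro ⟨C, c, hC, hc, H⟩
  obtain ⟨a, ha⟩ := exists_nat_ge C
  obtain ⟨b, hb⟩ := exists_nat_ge c
  obtain ⟨K, _, _, hK, h⟩ := many k (3 * b + k + 1) (3 * b * (3 * b + k + 1) + b + a + k + 1)
    (by have := @Nat.lt_two_pow_self k
        calc k * 2 ≤ 2 ^ k * 2 := by omega
          _ = 2 ^ (k + 1) := by ring
          _ ≤ _ := Nat.pow_le_pow_right (by norm_num) (by omega))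
    ((@Nat.lt_two_pow_self k).le.trans (Nat.pow_le_pow_right (by norm_num) (by omega))) (by omega)
  set r := 3 * b + k + 1 with hr
  set s := 3 * b * r + b + a + k + 1 with hs
  have h1 := H (PP K) (PP K)
  have hP : Nat.card (PP K) ≤ 2 ^ (3 * (r + s)) := by
    have : Nat.card (PP K) ≤ Nat.card (Fin 3 → K) :=
      Nat.card_le_card_of_injective Projectivization.rep (fun x y h => by
        rw [← mk_rep x, ← mk_rep y]; simp only [h])
    rw [Nat.card_fun, hK, Nat.card_fin, ← pow_mul, mul_comm] at this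
    exact this
  have hn : Nat.card (PP K ⊕ PP K) ≤ 2 ^ (3 * (r + s) + 1) := by rw [Nat.card_sum, pow_succ]; omega
  have hn1 : 1 ≤ Nat.card (PP K ⊕ PP K) := by
    have : Nonempty (PP K ⊕ PP K) := ⟨.inl (mk K ![1, 0, 0] (ne1 0 0))⟩
    exact Nat.card_pos
  have h2 : ((Nat.card (PP K ⊕ PP K) : ℕ) : ℝ) ^ c ≤ ((2 ^ (3 * (r + s) + 1) : ℕ) : ℝ) ^ b := by
    calc _ ≤ ((Nat.card (PP K ⊕ PP K) : ℕ) : ℝ) ^ (b : ℝ) :=
          Real.rpow_le_rpow_of_exponent_le (by exact_mod_cast hn1) hb
      _ = ((Nat.card (PP K ⊕ PP K) : ℕ) : ℝ) ^ b := Real.rpow_natCast _ _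
      _ ≤ _ := pow_le_pow_left₀ (by positivity) (by exact_mod_cast hn) _
  have h3 : ((2 ^ (r * s) : ℕ) : ℝ) ≤ (a : ℝ) * ((2 ^ (3 * (r + s) + 1) : ℕ) : ℝ) ^ b := by
    calc _ ≤ _ := by exact_mod_cast h
      _ ≤ _ := h1
      _ ≤ _ := mul_le_mul ha h2 (by positivity) (by positivity)
  have h4 : 2 ^ (r * s) ≤ a * (2 ^ (3 * (r + s) + 1)) ^ b := by exact_mod_cast h3
  have h5 : a * (2 ^ (3 * (r + s) + 1)) ^ b < 2 ^ a * (2 ^ (3 * (r + s) + 1)) ^ b :=
    Nat.mul_lt_mul_of_pos_right Nat.lt_two_pow_self (by positivity)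
  rw [← pow_mul, ← pow_add] at h5
  have h6 := (Nat.pow_lt_pow_iff_right (by norm_num : 1 < 2)).1 (h4.trans_lt (by rw [← pow_mul]; exact h5))
  have : r * s = 3 * b * s + k * s + s := by rw [hr]; ring
  nlinarith [Nat.zero_le (k * s)]

end Pool.Agent.Results.MP_a51b5f_co.Superpoly
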